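import Pool.Agent.U693.AF.Sub

/-!
# The conjecture of Birch and Swinnerton-Dyer for a positive proportion of all elliptic curves over `k(t)`,
# over ALL the subfields of an infinite class of 2-extensions, and for ALL their quadratic twists over them

Let `k` be a finite field of characteristic larger than `3` and `K = k(t)`. Every elliptic curve `E` over
`K` has an equation `y ^ 2 = f(x) = x ^ 3 + a x + b`, `a`, `b` in `k[t]`, such that there is no irreducible
`P` with `P ^ 4 ∣ a` and `P ^ 6 ∣ b`; its height is the least `N` with `deg a ≤ 2 N`, `deg b ≤ 3 N`.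

For `f` and a finite set `S` of primes of `k[t]` let `C(f, S)` be the class of all the finite Galois
extensions `M` of `K` of 2-power degree in which all `Q ∈ S` split completely and in which only such primes
`P` of `k[t]` are ramified modulo which `f` is irreducible (there is no condition at infinity).

Theorem. Let `M₀` be any finite Galois extension of `K` of 2-power degree. There are a finite set `S` of
primes and a constant `c > 0` such that for all large `N` at least `c` times the number of ALL the elliptic
curves over `K` of height at most `N` have the following properties: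

* `M₀` is in the class `C(f, S)`, the class is closed under composita, and there is an infinite set `Y` of
  primes such that all the `K(√D)`, `D` a product of an even number of different elements of `Y`, are in it;
* for ALL `M` in the class, ALL fields `L` between `K` and `M` (Galois over `K` or not) and ALL homomorphisms
  `χ : Gal(L^sep / L) → {1, -1}` which are trivial on `Gal(L^sep / M)` the quadratic twist `E_χ` over `L`
  (`E` with the action `σ * P = χ(σ) σ(P)`) has the following property: multiplication by two is bijective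
  on `E_χ(L)`, and every class of 2-power order in `H ^ 1 (L, E_χ)` which is zero over the completions of
  `L` at the places which are not over infinity is zero; so `Ш(E_χ / L)[2 ^ ∞] = 0`.

The group `E_χ(L)` is finitely generated, so it is finite (of odd order), and by the theorem of Artin, Tate
and Milne (it is enough to know that ONE primary part of `Ш` is finite), listed as known in the problem and
not formalized, the conjecture of Birch and Swinnerton-Dyer holds for `E_χ` over `L`, rank part and
formula, both ranks being `0`. Since the class is closed under composita this concerns all the elliptic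
curves `y ^ 2 = x ^ 3 + a d ^ 2 x + b d ^ 3` over all the function fields `L`, where `L` and `√d` are in
the infinite extension of `K` generated by all the members of the class.

What is new. The curves `E` themselves (`χ = 1`) over the members `L = M` of the class are treated in the
starting result `MP_ff7320_nt.UniformOverTwoExtensions` (project TW, helper874), the case `M = K` in
`MP_48b749_nt.PositiveProportionOfCurves`; the theorem over `M` is used. New are the fields `L` between `K`
and `M`, which need not be Galois over `K`, and the twists over them, whose coefficients need not be in `K`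
up to isomorphism: a Galois descent from `M` with twisted coefficients (`Pool/Agent/U693/AF`, written for my
`MP_1d384c_nt.AllFormsOfJacobianPowers`, which is about forms over `K`; the case of forms of powers is
`MP_72e2e6_nt.AllFormsOverSubfields`).
-/

set_option autoImplicit false
set_option linter.all false

namespace Pool.Agent.Results.MP_48b749_nt.AllTwistsOverSubfields

open Polynomial Filter IsDedekindDomain
open Pool.Agent.Y160.SE (jm)
open Pool.Agent.N874.Jac (J mapJ)
open scoped Classical

/-- `y ^ 2 = f(x) = x ^ 3 + a x + b` is a minimal Weierstrass equation of an elliptic curve over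
`K = k(t)`, with `a`, `b` in `k[t]` of degree at most `2 N` and `3 N`. -/
structure IsCurve {k : Type} [Field k] (K : Type) [Field K] [Algebra k[X] K] (N : ℕ)
    (f : k[X][X]) : Prop where
  monic : f.Monic
  degree : f.natDegree = 3
  trace : f.coeff 2 = 0
  height : (f.coeff 1).natDegree ≤ 2 * N ∧ (f.coeff 0).natDegree ≤ 3 * N
  smooth : (f.map (algebraMap k[X] K)).Separable
  minimal : ∀ P : k[X], Irreducible P → ¬ (P ^ 4 ∣ f.coeff 1 ∧ P ^ 6 ∣ f.coeff 0)

/-- The elliptic curves over `K = k(t)` of height at most `N`. -/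
def Curves (k : Type) [Field k] (K : Type) [Field K] [Algebra k[X] K] (N : ℕ) : Set k[X][X] :=
  {f | IsCurve K N f}

section twists

/-- The absolute Galois group of `L`, with the Krull topology. -/
abbrev GS (L : Type) [Field L] : Type := SeparableClosure L ≃ₐ[L] SeparableClosure L

variable {L : Type} [Field L] (F : L[X])

/-- The group `E(L')`, written additively, of the elliptic curve `E : y ^ 2 = F(x)`: the Picard group of
the affine curve over `L'`. -/
abbrev Pt (L' : Type) [Field L'] [Algebra L L'] : Type := Additive (J F L')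

/-- The map `E(L') → E(L'')`, `P ↦ ε φ(P)`, for a homomorphism `φ` of fields and a sign `ε`. -/
noncomputable def move (ε : ℤˣ) {L' L'' : Type} [Field L'] [Field L''] [Algebra L L']
    [Algebra L L''] (φ : L' →ₐ[L] L'') (P : Pt F L') : Pt F L'' :=
  (ε : ℤ) • (mapJ F φ).toAdditive P

/-- Functions on the absolute Galois group with values in `E(L^sep)`. -/
abbrev Cochain : Type := GS L → Pt F (SeparableClosure L)

variable (χ : GS L →* ℤˣ)

/-- The action of the Galois group on `E_χ(L^sep) = E(L^sep)`: `σ * P = χ(σ) σ(P)`. -/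
noncomputable def act (σ : GS L) (P : Pt F (SeparableClosure L)) : Pt F (SeparableClosure L) :=
  move F (χ σ) σ.toAlgHom P

/-- `c` is a continuous cocycle of the absolute Galois group with values in `E_χ(L^sep)`. -/
def IsCocycle (c : Cochain F) : Prop :=
  IsLocallyConstant c ∧ ∀ σ τ, c (σ * τ) = c σ + act F χ σ (c τ)

/-- `c` is a coboundary. -/
def IsCoboundary (c : Cochain F) : Prop := ∃ P, ∀ σ, c σ = act F χ σ P - P

/-- For every embedding `ι` of the separable closures the restriction of `c` to the absolute Galois
group of the extension `L'` of `L`, with values in `E_χ`, is a coboundary. An automorphism `τ` over `L'`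
acts by `P ↦ χ(σ) τ(P)`, where `σ` is the restriction of `τ`. -/
def LocallyTrivial (L' : Type) [Field L'] [Algebra L L'] (c : Cochain F) : Prop :=
  ∀ ι : SeparableClosure L →ₐ[L] SeparableClosure L', ∃ P : Pt F (SeparableClosure L'),
    ∀ (τ : GS L') (σ : GS L), (∀ x, τ (ι x) = ι (σ x)) →
      move F 1 ι (c σ) = move F (χ σ) (τ.toAlgHom.restrictScalars L) P - P

/-- `P` is in `E_χ(L)`. -/
def IsPoint (P : Pt F (SeparableClosure L)) : Prop := ∀ σ : GS L, act F χ σ P = P

variable (R : Type) [CommRing R] [IsDedekindDomain R] [Algebra R L] [IsFractionRing R L]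

/-- The class of `c` is zero over the completions of `L` at all maximal ideals of `R`. -/
def TrivialAtPrimes (c : Cochain F) : Prop :=
  ∀ v : HeightOneSpectrum R, LocallyTrivial F χ (v.adicCompletion L) c

/-- Multiplication by two is bijective on `E_χ(L)`, and every class of 2-power order in
`H ^ 1 (L, E_χ)` which is zero over the completions of `L` at all maximal ideals of `R` is zero. -/
structure NoTwoPart : Prop where
  injective : ∀ P, IsPoint F χ P → 2 • P = 0 → P = 0
  surjective : ∀ P, IsPoint F χ P → ∃ Q, IsPoint F χ Q ∧ 2 • Q = P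
  sha : ∀ (c : Cochain F) (m : ℕ), IsCocycle F χ c → TrivialAtPrimes F χ R c →
    IsCoboundary F χ (fun σ => 2 ^ m • c σ) → IsCoboundary F χ c

end twists

/-- `f` is irreducible modulo `P`. -/
def IrreducibleMod {k : Type} [Field k] (f : k[X][X]) (P : k[X]) : Prop :=
  Irreducible (f.map (Ideal.Quotient.mk (Ideal.span {P})))

/-- `P` is unramified in the extension `R` of `k[t]`. -/
def Unramified {k : Type} [Field k] (R : Type) [CommRing R] [Algebra k[X] R] (P : k[X]) : Prop :=
  ∀ 𝔭 : Ideal R, 𝔭.IsPrime → algebraMap k[X] R P ∉ 𝔭 ^ 2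

/-- `Q` splits completely in the extension `R` of `k[t]`: it is unramified, and every element of `R` is
congruent to a polynomial modulo every prime over `Q`. -/
def SplitsCompletely {k : Type} [Field k] (R : Type) [CommRing R] [Algebra k[X] R] (Q : k[X]) :
    Prop :=
  Unramified R Q ∧ ∀ 𝔭 : Ideal R, 𝔭.IsPrime → algebraMap k[X] R Q ∈ 𝔭 →
    ∀ x : R, ∃ c : k[X], x - algebraMap k[X] R c ∈ 𝔭

/-- The class `C(f, S)`: the finite Galois extensions `M` of `K = k(t)` of 2-power degree in which all
`Q ∈ S` split completely and in which only such primes `P` of `k[t]` are ramified modulo which `f` is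
irreducible. -/
structure InClass {k : Type} [Field k] (K : Type) [Field K] [Algebra k[X] K] (S : Finset k[X])
    (f : k[X][X]) (M : Type) [Field M] [Algebra K M] [Algebra k[X] M] : Prop where
  finite : FiniteDimensional K M
  galois : IsGalois K M
  degree : ∃ n : ℕ, Module.finrank K M = 2 ^ n
  split : ∀ Q ∈ S, SplitsCompletely (integralClosure k[X] M) Q
  ramified : ∀ P : k[X], Irreducible P → Unramified (integralClosure k[X] M) P ∨ IrreducibleMod f P

/-- The field `N` is generated by the images of `M₁` and `M₂`. -/
def IsCompositum (M₁ M₂ N : Type) [Field M₁] [Field M₂] [Field N] [Algebra M₁ N]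
    [Algebra M₂ N] : Prop :=
  ∀ F : Subfield N, (∀ x : M₁, algebraMap M₁ N x ∈ F) → (∀ x : M₂, algebraMap M₂ N x ∈ F) → F = ⊤

/-- The field `M` is generated by `r` over `K`. -/
def IsGeneratedBy (K : Type) {M : Type} [Field K] [Field M] [Algebra K M] (r : M) : Prop :=
  ∀ F : Subfield M, (∀ x : K, algebraMap K M x ∈ F) → r ∈ F → F = ⊤

section properties

variable {k : Type} [Field k] (K : Type) [Field K] [Algebra k[X] K] (S : Finset k[X]) (f : k[X][X])

/-- The class is closed under composita. -/
def ClosedUnderComposita : Prop :=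
  ∀ (M₁ M₂ N : Type) [Field M₁] [Algebra K M₁] [Algebra k[X] M₁] [IsScalarTower k[X] K M₁]
    [Field M₂] [Algebra K M₂] [Algebra k[X] M₂] [IsScalarTower k[X] K M₂]
    [Field N] [Algebra K N] [Algebra k[X] N] [IsScalarTower k[X] K N] [Algebra M₁ N]
    [IsScalarTower K M₁ N] [Algebra M₂ N] [IsScalarTower K M₂ N], IsCompositum M₁ M₂ N →
    InClass K S f M₁ → InClass K S f M₂ → InClass K S f N

/-- The extension `K(√D)` is in the class. -/
def QuadraticInClass (D : k[X]) : Prop :=
  ∀ (M : Type) [Field M] [Algebra K M] [Algebra k[X] M] [IsScalarTower k[X] K M] (r : M),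
    r ^ 2 = algebraMap k[X] M D → IsGeneratedBy K r → InClass K S f M

/-- There are infinitely many primes such that the extensions by square roots of products of an even
number of different ones are in the class. -/
def ManyQuadratic : Prop :=
  ∃ Y : Set k[X], Y.Infinite ∧ (∀ P ∈ Y, P.Monic ∧ Irreducible P) ∧
    ∀ A : Finset k[X], (A : Set k[X]) ⊆ Y → Even A.card → QuadraticInClass K S f (∏ P ∈ A, P)

/-- For all the members `M` of the class, ALL the fields `L` between `K` and `M` and all
`χ : Gal(L^sep / L) → {1, -1}` which are trivial on the automorphisms over the image of `M` in `L^sep` the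
quadratic twist `E_χ` over `L` has no 2-part. Here `R` is the integral closure of `k[t]` in `L`. -/
def AllTwists : Prop :=
  ∀ (M : Type) [Field M] [Algebra K M] [Algebra k[X] M] [IsScalarTower k[X] K M],
    InClass K S f M → ∀ (L : Type) [Field L] [Algebra K L] [Algebra k[X] L]
    [IsScalarTower k[X] K L] [Algebra L M] [IsScalarTower K L M] (R : Type) [CommRing R]
    [IsDedekindDomain R] [Algebra R L] [IsFractionRing R L] [Algebra k[X] R]
    [IsScalarTower k[X] R L] [IsIntegralClosure R k[X] L]
    (ψ : M →ₐ[L] SeparableClosure L) (χ : GS L →* ℤˣ),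
    (∀ σ : GS L, (∀ x : M, σ (ψ x) = ψ x) → χ σ = 1) →
    NoTwoPart (f.map (algebraMap k[X] L)) χ R

end properties

/-- The property of the curve `y ^ 2 = f(x)`: the given extension `M₀` is in the class, the class is closed
under composita and contains infinitely many quadratic extensions, and all quadratic twists of the curve over
subfields of its members which are split by the members have no 2-part. -/
structure Good {k : Type} [Field k] (K : Type) [Field K] [Algebra k[X] K]
    (S : Finset k[X]) (M₀ : Type) [Field M₀] [Algebra K M₀] [Algebra k[X] M₀] (f : k[X][X]) :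
    Prop where
  base : InClass K S f M₀
  composita : ClosedUnderComposita K S f
  many : ManyQuadratic K S f
  twists : AllTwists K S f

/-- The elliptic curves over `K` of height at most `N` with the property. -/
def GoodCurves (k : Type) [Field k] (K : Type) [Field K] [Algebra k[X] K]
    (S : Finset k[X]) (M₀ : Type) [Field M₀] [Algebra K M₀] [Algebra k[X] M₀] (N : ℕ) :
    Set k[X][X] :=
  {f ∈ Curves k K N | Good K S M₀ f}

theorem class_iff {k : Type} [Field k] {K : Type} [Field K] [Algebra k[X] K]
    [IsFractionRing k[X] K] {S : Finset k[X]} (hS : ∀ Q ∈ S, Irreducible Q)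
    {f : k[X][X]} {M : Type} [Field M] [Algebra K M] [Algebra k[X] M] [IsScalarTower k[X] K M] :
    InClass K S f M ↔ Pool.Agent.U693.FF.Cls k[X] K S (Pool.Agent.U693.FF.IrrMod f) M := by
  constructor
  · intro h
    refine ⟨h.finite, h.galois, h.degree, fun Q hQ 𝔭 h𝔭 hm => ?_, fun P hP hex => ?_⟩
    · exact ⟨(h.split Q hQ).1 𝔭 h𝔭, (h.split Q hQ).2 𝔭 h𝔭 hm⟩
    · obtain ⟨𝔭, h𝔭, h2⟩ := hex
      exact (h.ramified P hP).resolve_left fun h3 => h3 𝔭 h𝔭 h2
  · intro h
    refine ⟨h.finite, h.galois, h.degree, fun Q hQ => ⟨fun 𝔭 h𝔭 h2 => ?_, fun 𝔭 h𝔭 hm => ?_⟩,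
      fun P hP => ?_⟩
    · exact (h.split Q hQ 𝔭 h𝔭 (Ideal.pow_le_self two_ne_zero h2)).1 h2
    · exact (h.split Q hQ 𝔭 h𝔭 hm).2
    · by_cases h1 : Unramified (integralClosure k[X] M) P
      · exact Or.inl h1
      · right
        apply h.ram P hP
        unfold Unramified at h1
        push Not at h1
        exact h1

theorem mapJ_eq {L : Type} [Field L] (F : L[X]) {E E' : Type} [Field E] [Field E'] [Algebra L E]
    [Algebra L E'] (φ : E →ₐ[L] E') (x : Additive (J F E)) :
    (mapJ F φ).toAdditive x = jm 2 F φ x := Pool.Agent.N106.JB.ad_mapJ φ x.toMul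

/-- The one-dimensional representation given by a character. -/
noncomputable def rep {L : Type} [Field L] (χ : GS L →* ℤˣ) :
    GS L →* Matrix.GeneralLinearGroup (Fin 1) ℤ :=
  (Units.map ((Matrix.scalar (Fin 1) : ℤ →+* Matrix (Fin 1) (Fin 1) ℤ) :
    ℤ →* Matrix (Fin 1) (Fin 1) ℤ)).comp χ

theorem rep_val {L : Type} [Field L] (χ : GS L →* ℤˣ) (σ : GS L) (i j : Fin 1) :
    (rep χ σ).1 i j = (χ σ : ℤ) := by
  have hi : i = 0 := Subsingleton.elim _ _
  have hj : j = 0 := Subsingleton.elim _ _
  subst hi
  subst hj
  show (Matrix.scalar (Fin 1) ((χ σ : ℤˣ) : ℤ)) 0 0 = _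
  rw [Matrix.scalar_apply, Matrix.diagonal_apply_eq]

theorem mt_rep {L : Type} [Field L] {F : L[X]} (χ : GS L →* ℤˣ) (σ : GS L) {E E' : Type} [Field E]
    [Field E'] [Algebra L E] [Algebra L E'] (φ : E →ₐ[L] E') (x : Additive (J F E)) :
    Pool.Agent.U693.AF.mt (rep χ σ).1 (Pool.Agent.U693.AF.mp (jm 2 F φ) (fun _ : Fin 1 => x)) =
      fun _ => move F (χ σ) φ x := by
  funext i
  rw [Pool.Agent.U693.AF.mt_apply, Fin.sum_univ_one, rep_val]
  exact congrArg (fun z => (χ σ : ℤ) • z) (mapJ_eq F φ x).symm

theorem const_eq {A : Type} (x : Fin 1 → A) : (fun _ : Fin 1 => x 0) = x := by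
  funext i
  rw [Subsingleton.elim i 0]

/-- The twists which are split by `M`. -/
theorem twist_of {L A : Type} [CommRing A] [IsDedekindDomain A] [Field L] [Algebra A L]
    [IsFractionRing A L] {F : L[X]} {χ : GS L →* ℤˣ}
    (h : Pool.Agent.U693.AF.NoTwo F (rep χ) A) : NoTwoPart F χ A := by
  obtain ⟨⟨p1, p2⟩, p3⟩ := h
  have key : ∀ (σ : GS L) (x : Additive (J F (SeparableClosure L))),
      Pool.Agent.U693.AF.ta F (rep χ) σ (fun _ : Fin 1 => x) = fun _ => act F χ σ x :=
    fun σ x => mt_rep χ σ σ.toAlgHom x
  refine ⟨fun P hP h0 => ?_, fun P hP => ?_, fun c m hc hl hb => ?_⟩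
  · have h1 := p1 (fun _ => P) (fun σ => by rw [key, hP σ]) (by
      funext i
      exact h0)
    exact congrFun h1 0
  · obtain ⟨y, hy, hy2⟩ := p2 (fun _ => P) (fun σ => by rw [key, hP σ])
    refine ⟨y 0, fun σ => ?_, congrFun hy2 0⟩
    have h3 := hy σ
    rw [← const_eq y] at h3
    exact congrFun ((key σ (y 0)).symm.trans h3) 0
  · have h1 : Pool.Agent.U693.AF.TCoc F (rep χ) (fun σ _ => c σ) := by
      refine ⟨hc.1.comp (fun x => fun _ : Fin 1 => x), fun σ τ => ?_⟩
      funext i
      have h5 := congrFun (mt_rep χ σ σ.toAlgHom (c τ)) i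
      exact (hc.2 σ τ).trans (congrArg (fun z => c σ + z) h5.symm)
    have h2 : ∀ v : HeightOneSpectrum A,
        Pool.Agent.U693.AF.TLoc F (rep χ) (v.adicCompletion L) (fun σ _ => c σ) := by
      intro v ι
      obtain ⟨P, hP⟩ := hl v ι
      refine ⟨fun _ => P, fun τ σ hx => ?_⟩
      funext i
      have h5 := congrFun (mt_rep χ σ (τ.toAlgHom.restrictScalars L) P) i
      have h6 := hP τ σ hx
      have h7 : jm 2 F ι (c σ) = move F 1 ι (c σ) := by
        show _ = ((1 : ℤˣ) : ℤ) • (mapJ F ι).toAdditive (c σ)
        rw [Units.val_one, one_zsmul, mapJ_eq]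
      exact (h7.trans h6).trans (congrArg (fun z => z - P) h5.symm)
    have h3 : Pool.Agent.U693.AF.TCob F (rep χ) (fun σ => 2 ^ m • fun _ : Fin 1 => c σ) := by
      obtain ⟨P, hP⟩ := hb
      refine ⟨fun _ => P, fun σ => ?_⟩
      funext i
      have h5 := congrFun (mt_rep χ σ σ.toAlgHom P) i
      exact (hP σ).trans (congrArg (fun z => z - P) h5.symm)
    obtain ⟨Q, hQ⟩ := p3 (fun σ _ => c σ) m h1 h2 h3
    refine ⟨Q 0, fun σ => ?_⟩
    have h4 := hQ σ
    rw [← const_eq Q] at h4
    have h5 := congrFun (mt_rep χ σ σ.toAlgHom (Q 0)) (0 : Fin 1)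
    exact (congrFun h4 0).trans (congrArg (fun z => z - Q 0) h5)

theorem good_of {k : Type} [Field k] [Finite k] (h2 : (2 : k) ≠ 0) {K : Type} [Field K]
    [Algebra k[X] K] [IsFractionRing k[X] K]
    {S : Finset k[X]} (hS : ∀ Q ∈ S, Irreducible Q)
    {M₀ : Type} [Field M₀] [Algebra K M₀] [Algebra k[X] M₀] [IsScalarTower k[X] K M₀] {f : k[X][X]}
    (hf : f.Monic) (ho : Odd f.natDegree) (hs : (f.map (algebraMap k[X] K)).Separable)
    (h : Pool.Agent.U693.FF.Prp K ∅ S M₀ f) : Good K S M₀ f := by
  refine ⟨(class_iff hS).2 h.base, ?_, ?_, ?_⟩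
  · intro M₁ M₂ N _ _ _ _ _ _ _ _ _ _ _ _ _ _ _ _ hg h1 h2
    exact (class_iff hS).2 (h.comp M₁ M₂ N hg ((class_iff hS).1 h1) ((class_iff hS).1 h2))
  · obtain ⟨Y, y1, y2, y3⟩ := h.many
    exact ⟨Y, y1, y2, fun A hA hev M _ _ _ _ r hr hg => (class_iff hS).2 (y3 A hA hev M r hr hg)⟩
  · intro M _ _ _ _ h1 L _ _ _ _ _ _ A _ _ _ _ _ _ _ ψ χ hχ
    exact twist_of (Pool.Agent.U693.AF.all_sub h2 hf ho hs h M ((class_iff hS).1 h1) L A ψ 1 (rep χ)
      (fun σ hσ => by
        show Units.map _ (χ σ) = 1
        rw [hχ σ hσ, map_one]))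

/-- For every finite field `k` of characteristic larger than `3` and every finite Galois extension `M₀` of
`K = k(t)` of 2-power degree there are a finite set `S` of primes of `k[t]` and a positive constant `c` such
that for all large `N` at least `c` times the number of all elliptic curves over `K` of height at most `N`
are good: the class of the finite Galois extensions `M` of `K` of 2-power degree in which all `Q ∈ S` split
completely and in which only primes are ramified modulo which `x ^ 3 + a x + b` is irreducible contains `M₀`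
and all `K(√D)`, `D` a product of an even number of different elements of an infinite set of primes, it is
closed under composita, and for ALL `M` in the class, ALL fields `L` between `K` and `M` and ALL quadratic
characters `χ` of `L` trivial over `M` the quadratic twist `E_χ` over `L` has no 2-part: multiplication by
two is bijective on `E_χ(L)` and the 2-primary part of the Tate-Shafarevich group of `E_χ` over `L` is
zero. -/
theorem result (k : Type) [Field k] [Finite k] (hp : (6 : k) ≠ 0) (K : Type) [Field K]
    [Algebra k[X] K] [IsFractionRing k[X] K]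
    (M₀ : Type) [Field M₀] [Algebra K M₀] [Algebra k[X] M₀] [IsScalarTower k[X] K M₀]
    [FiniteDimensional K M₀] [IsGalois K M₀] (n : ℕ) (hn : Module.finrank K M₀ = 2 ^ n) :
    (∀ N : ℕ, (Curves k K N).Finite) ∧
    ∃ S : Finset k[X], (∀ Q ∈ S, Q.Monic ∧ Irreducible Q) ∧
      ∃ c : ℝ, 0 < c ∧ ∀ᶠ N : ℕ in atTop, 0 < (Curves k K N).ncard ∧
        c * ((Curves k K N).ncard : ℝ) ≤ ((GoodCurves k K S M₀ N).ncard : ℝ) := by
  have h2 : (2 : k) ≠ 0 := by
    intro h0
    apply hp
    have e : (6 : k) = 2 * 3 := by norm_num
    rw [e, h0, zero_mul]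
  have hp' : ((2 * 1 + 1).factorial : k) ≠ 0 := by
    have e : ((2 * 1 + 1).factorial : k) = 6 := by norm_num [Nat.factorial]
    rw [e]
    exact hp
  have hsub : ∀ N, Curves k K N ⊆ {f : k[X][X] | Pool.Agent.N352.PJ.Ht 1 N f} :=
    fun N f hf => ⟨hf.monic, hf.degree, hf.trace, fun j hj => by
      have hj' : j = 0 ∨ j = 1 ∨ j = 2 := by omega
      rcases hj' with rfl | rfl | rfl
      · have := hf.height.2
        omega
      · have := hf.height.1
        omega
      · rw [hf.trace, natDegree_zero]
        exact Nat.zero_le _⟩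
  have hfin : ∀ N, (Curves k K N).Finite := fun N =>
    (Pool.Agent.N415.PJMAIN.ht_card (k := k) 1 N).1.subset (hsub N)
  refine ⟨hfin, ?_⟩
  obtain ⟨S, hS, hdis, c, hc, N₀, hN₀⟩ :=
    Pool.Agent.U693.FF.finalF k le_rfl hp' K ∅ (by simp) M₀ hn
  refine ⟨S, hS, c, hc, ?_⟩
  filter_upwards [eventually_ge_atTop N₀] with N hN
  obtain ⟨hHt, hle⟩ := hN₀ N hN
  have hsub2 : {f : k[X][X] | Pool.Agent.N352.PJ.Ht 1 N f ∧ Pool.Agent.N352.PJ.Mini 1 f ∧
      (f.map (algebraMap k[X] K)).Separable ∧ Pool.Agent.U693.FF.Prp K ∅ S M₀ f} ⊆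
      GoodCurves k K S M₀ N := by
    rintro f ⟨a1, a2, a3, a4⟩
    refine ⟨⟨a1.mon, a1.deg, a1.tr, ⟨?_, ?_⟩, a3, fun P hP h => a2 P hP fun j hj => ?_⟩,
      good_of h2 (fun Q hQ => (hS Q hQ).2) a1.mon (by rw [a1.deg]; decide) a3 a4⟩
    · have := a1.ht 1 (by norm_num)
      omega
    · have := a1.ht 0 (by norm_num)
      omega
    · have hj' : j = 0 ∨ j = 1 ∨ j = 2 := by omega
      rcases hj' with rfl | rfl | rfl
      · exact h.2
      · exact h.1
      · have := a1.tr
        rw [this]
        exact dvd_zero _
  have hfin2 : (GoodCurves k K S M₀ N).Finite := (hfin N).subset fun f hf => hf.1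
  have h1 := Set.ncard_le_ncard hsub2 hfin2
  have h2' : c * ({f : k[X][X] | Pool.Agent.N352.PJ.Ht 1 N f}.ncard : ℝ) ≤
      ((GoodCurves k K S M₀ N).ncard : ℝ) := hle.trans (by exact_mod_cast h1)
  have hne : 0 < {f : k[X][X] | Pool.Agent.N352.PJ.Ht 1 N f}.ncard := by
    rw [Set.ncard_pos hHt]
    refine ⟨X ^ (2 * 1 + 1), monic_X_pow _, natDegree_X_pow _, ?_, fun j hj => ?_⟩
    · rw [coeff_X_pow, if_neg (by omega)]
    · rw [coeff_X_pow, if_neg (by omega), natDegree_zero]
      exact Nat.zero_le _
  have h3 : 0 < ((GoodCurves k K S M₀ N).ncard : ℝ) := by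
    refine lt_of_lt_of_le ?_ h2'
    exact mul_pos hc (by exact_mod_cast hne)
  refine ⟨?_, ?_⟩
  · have h4 := Set.ncard_le_ncard (s := GoodCurves k K S M₀ N) (t := Curves k K N)
      (fun f hf => hf.1) (hfin N)
    have h5 : 0 < (GoodCurves k K S M₀ N).ncard := by exact_mod_cast h3
    omega
  · refine le_trans ?_ h2'
    have h4 := Set.ncard_le_ncard (hsub N) hHt
    exact mul_le_mul_of_nonneg_left (by exact_mod_cast h4) hc.le

end Pool.Agent.Results.MP_48b749_nt.AllTwistsOverSubfields
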