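import Pool.Agent.U965.W.E

/-!
# Elliptic curves `y ^ 2 = P(x) - f (x ^ 2 - e ^ 2)` over function fields, ranks and orders two

Here `P = x ^ 3 + p x + r` and `e` have coefficients in the finite field `k`, `P(e)` and `P(-e)` are
squares in `k`, and `f` is an element of a function field `K` over `k`. The curves have two points
with constant abscissas `e` and `-e`. They are the pull-backs by `f` of rational elliptic surfaces
with a fibre of type `I₂*` over `f = ∞`. The points of order two have the abscissas `θ` with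
`P(θ) = f (θ ^ 2 - e ^ 2)`.
-/

set_option autoImplicit false
set_option linter.all false
set_option maxHeartbeats 4000000

open Polynomial Pool.Agent.W343.BSD Pool.Agent.W313.Gr

namespace Pool.Agent.Results.MP_48b749_nt.CubicPencilPullbacks

section defs

variable {k K : Type} [Field k] [Field K] [Algebra k K]

/-- The coefficient `a` of the equation `Y ^ 2 = X ^ 3 + a X + b` of the curve
`y ^ 2 = x ^ 3 + p x + r - f (x ^ 2 - e ^ 2)`, where `X = 9 x - 3 f`, `Y = 27 y`. -/
noncomputable def coeffA (p : k) (f : K) : K := 27 * (3 * algebraMap k K p - f ^ 2)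

/-- The coefficient `b` of this equation. -/
noncomputable def coeffB (e p r : k) (f : K) : K :=
  27 * (27 * algebraMap k K r + 9 * (3 * algebraMap k K e ^ 2 + algebraMap k K p) * f - 2 * f ^ 3)

/-- The element with `4 a ^ 3 + 27 b ^ 2 = 3 ^ 12 * disc`. -/
noncomputable def disc (e p r : k) (f : K) : K :=
  -(4 * algebraMap k K e ^ 2) * f ^ 4 - 4 * algebraMap k K r * f ^ 3 +
    (27 * algebraMap k K e ^ 4 + 18 * algebraMap k K e ^ 2 * algebraMap k K p -
      algebraMap k K p ^ 2) * f ^ 2 +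
    18 * algebraMap k K r * (3 * algebraMap k K e ^ 2 + algebraMap k K p) * f +
    (4 * algebraMap k K p ^ 3 + 27 * algebraMap k K r ^ 2)

open Classical in
/-- The weight of a place: `1` or `2` at the poles of `f` of even or odd order; at the common zeros of
`a` and `b` it is `2` if the order of `b` is congruent to `3` modulo `6`, and `0` otherwise; at the
other zeros of `disc` of even order it is `1`; at all other places it is `0`. -/
noncomputable def weight (e p r : k) (f : K) (v : FF.Place k K) : ℕ :=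
  if v.ord f < 0 then (if Even (v.ord f) then 1 else 2)
  else if 0 < v.ord (coeffA p f) ∧ 0 < v.ord (coeffB e p r f) then
    (if v.ord (coeffB e p r f) % 6 = 3 then 2 else 0)
  else if 0 < v.ord (disc e p r f) ∧ Even (v.ord (disc e p r f)) then 1 else 0

/-- The sum of `weight v * 2 ^ v₂(deg v)` over all places `v`. -/
noncomputable def weightSum (k : Type) {K : Type} [Field k] [Field K] [Algebra k K] (e p r : k)
    (f : K) : ℕ :=
  ∑ᶠ v : FF.Place k K, weight e p r f v * 2 ^ padicValNat 2 (S.deg v)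

open Classical in
/-- The sum of `2 ^ v₂(deg v)` over the zeros `v` of `g` (without multiplicities). -/
noncomputable def zeroSum (k : Type) {K : Type} [Field k] [Field K] [Algebra k K] (g : K) : ℕ :=
  ∑ᶠ v : FF.Place k K, if 0 < v.ord g then 2 ^ padicValNat 2 (S.deg v) else 0

/-- `y ^ 2 = x ^ 3 + a x + b` is an elliptic curve with a non-constant `j`-invariant
`6912 a ^ 3 / (4 a ^ 3 + 27 b ^ 2)`. -/
def NonIsotrivial (k : Type) {K : Type} [Field k] [Field K] [Algebra k K] (a b : K) : Prop :=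
  4 * a ^ 3 + 27 * b ^ 2 ≠ 0 ∧
    ∀ c : k, 6912 * a ^ 3 / (4 * a ^ 3 + 27 * b ^ 2) ≠ algebraMap k K c

/-- If `L(T, E)` is `(1 - |k| T) ^ m G(T)` with `G` in `ℤ[T]` then `m ≤ N`. -/
def OrderBound (k : Type) {K : Type} [Field k] [Field K] [Algebra k K] (a b : K) (N : ℕ) : Prop :=
  ∀ m : ℕ, S.VanishesTo k a b m → m ≤ N

/-- The rank is at least `R` and the order of vanishing `r` of `L(T, E)` at `T = 1 / |k|` (if
`L(T, E)` is a polynomial) is at most `R`. If the rank is at most the order then both are `R`. -/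
def RankAndOrder (k : Type) {K : Type} [Field k] [Field K] [Algebra k K] (a b : K) (R : ℕ) : Prop :=
  R ≤ rank a b ∧ OrderBound k a b R ∧
    ∀ r : ℕ, HasOrder k a b r → r ≤ R ∧ (rank a b ≤ r → r = R ∧ rank a b = R)

/-- `e` is not zero, `P(e)` and `P(-e)` are squares in `k` for `P = x ^ 3 + p x + r`, `f` has a pole
of odd order, and `P(x) = f (x ^ 2 - e ^ 2)` has a solution `θ` in an extension `L = K(θ)` of degree
three of `K`, which is the function field of a curve with field of constants `k` and odd class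
number. -/
def IsPencil (k : Type) {K : Type} [Field k] [Field K] [Algebra k K] (e p r : k) (f : K) : Prop :=
  e ≠ 0 ∧ IsSquare (e ^ 3 + p * e + r) ∧ IsSquare (-e ^ 3 - p * e + r) ∧
    (∃ v : FF.Place k K, v.ord f < 0 ∧ Odd (v.ord f)) ∧
    ∃ (L : Type) (_ : Field L) (_ : Algebra k L) (_ : Algebra K L) (_ : IsScalarTower k K L) (θ : L),
      θ ^ 3 + algebraMap k L p * θ + algebraMap k L r =
        algebraMap K L f * (θ ^ 2 - algebraMap k L e ^ 2) ∧
      IntermediateField.adjoin K {θ} = ⊤ ∧ Module.finrank K L = 3 ∧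
      IsCurveField k L ∧ Odd (S.classNumber k L)

/-- `h` is not `1`, `h - 1` has a zero of odd order, `h` has no zeros and poles of order congruent to
`3` modulo `6`, and it has a cube root `s` in an extension `L = K(s)` of degree three of `K`, which is
the function field of a curve with field of constants `k` and odd class number. -/
def IsCube (k : Type) {K : Type} [Field k] [Field K] [Algebra k K] (h : K) : Prop :=
  h ≠ 1 ∧ (∃ v : FF.Place k K, 0 < v.ord (h - 1) ∧ Odd (v.ord (h - 1))) ∧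
    (∀ v : FF.Place k K, (3 : ℤ) ∣ v.ord h → (6 : ℤ) ∣ v.ord h) ∧
    ∃ (L : Type) (_ : Field L) (_ : Algebra k L) (_ : Algebra K L) (_ : IsScalarTower k K L) (s : L),
      s ^ 3 = algebraMap K L h ∧ IntermediateField.adjoin K {s} = ⊤ ∧ Module.finrank K L = 3 ∧
      IsCurveField k L ∧ Odd (S.classNumber k L)

/-- The curve has a non-constant `j`-invariant and no point of order two (the cubic has no zero in
`K`). The order of vanishing of its `L`-function is at most `weightSum`, and its rank is at least two.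
If `weightSum ≤ 2` then `RankAndOrder` holds with `R = 2`. -/
def Conclusions (k : Type) {K : Type} [Field k] [Field K] [Algebra k K] (e p r : k) (f : K) :
    Prop :=
  NonIsotrivial k (coeffA p f) (coeffB e p r f) ∧
    (∀ x : K, x ^ 3 + coeffA p f * x + coeffB e p r f ≠ 0) ∧
    OrderBound k (coeffA p f) (coeffB e p r f) (weightSum k e p r f) ∧
    2 ≤ rank (coeffA p f) (coeffB e p r f) ∧
    (weightSum k e p r f ≤ 2 → RankAndOrder k (coeffA p f) (coeffB e p r f) 2)

/-- The function `f = κ (1 + h) / (1 - h)`. -/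
noncomputable def kum (κ : k) (h : K) : K := algebraMap k K κ * (1 + h) / (1 - h)

/-- The function `h = t ^ m g ^ 6` in `k(t)`. -/
noncomputable def lineFn (m : ℕ) (g : RatFunc k) : RatFunc k := RatFunc.X ^ m * g ^ 6

/-- If `-1` is a square in `k` and `κ ^ 2 = -108`, and if `h` satisfies `IsCube`, then `e = 2`,
`p = -36`, `r = 0` and `f = κ (1 + h) / (1 - h)` satisfy `IsPencil`, and `weightSum` is at most twice
`zeroSum (h - 1)`. -/
def CubeRoots (k K : Type) [Field k] [Field K] [Algebra k K] : Prop :=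
  ∀ κ : k, IsSquare (-1 : k) → κ ^ 2 = -108 → ∀ h : K, IsCube k h →
    IsPencil k 2 (-36) 0 (kum κ h) ∧ weightSum k 2 (-36) 0 (kum κ h) ≤ 2 * zeroSum k (h - 1)

/-- The functions `h = t ^ m g ^ 6`, with `m` prime to `3`, `g` not zero and a zero of odd order of
`h - 1`, satisfy `IsCube`. -/
def LineFunctions (k : Type) [Field k] : Prop :=
  ∀ (m : ℕ) (g : RatFunc k), ¬ 3 ∣ m → g ≠ 0 →
    (∃ v : FF.Place k (RatFunc k), 0 < v.ord (lineFn m g - 1) ∧ Odd (v.ord (lineFn m g - 1))) →
    IsCube k (lineFn m g)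

/-- If `-1` is a square in `k` and `κ ^ 2 = -108`, and if a prime `l ≥ 5` divides `|k| - 1`, then there
is `c` not zero such that for all `j` and `h = t ^ (l ^ j) c ^ 6` the `Conclusions` hold for `e = 2`,
`p = -36`, `r = 0`, `f = κ (1 + h) / (1 - h)`, and `weightSum ≤ 2`. -/
def Sequences (k : Type) [Field k] : Prop :=
  ∀ κ : k, IsSquare (-1 : k) → κ ^ 2 = -108 → ∀ l : ℕ, l.Prime → 5 ≤ l → l ∣ Nat.card k - 1 →
    ∃ c : k, c ≠ 0 ∧ ∀ (j : ℕ) (f : RatFunc k),
      f = kum κ (lineFn (l ^ j) (algebraMap k (RatFunc k) c)) →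
      Conclusions k 2 (-36) 0 f ∧ weightSum k 2 (-36) 0 f ≤ 2

end defs

section proof

open Pool.Agent.U965

theorem A_eq {k K : Type} [Field k] [Field K] [Algebra k K] (p : k) (f : K) :
    aeval f (W.polyA p) = coeffA p f := W.aevalA p f

theorem B_eq {k K : Type} [Field k] [Field K] [Algebra k K] (e p r : k) (f : K) :
    aeval f (W.polyB e p r) = coeffB e p r f := W.aevalB e p r f

theorem D_eq {k K : Type} [Field k] [Field K] [Algebra k K] (e p r : k) (f : K) :
    aeval f (W.polyD e p r) = disc e p r f := by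
  unfold W.polyD disc
  simp only [map_add, map_mul, map_pow, aeval_X, aeval_C, map_neg, map_ofNat, map_sub]
  ring

theorem sum_eq {k K : Type} [Field k] [Finite k] [Field K] [Algebra k K] [FF.IsFF k K] (e p r : k)
    (f : K) : weightSum k e p r f = W.wSum k e p r f := by
  unfold weightSum W.wSum
  refine finsum_congr fun v => ?_
  unfold weight W.wt
  rw [A_eq, B_eq, D_eq]
  rfl

/-- the conclusions for one curve -/
theorem common {k K : Type} [Field k] [Finite k] [Field K] [Algebra k K] (hK : IsCurveField k K)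
    (h6 : (6 : k) ≠ 0) {e p r : k} {f : K} (h : IsPencil k e p r f) : Conclusions k e p r f := by
  haveI : FF.IsFF k K := ⟨hK.essFiniteType, hK.trdeg_eq_one⟩
  have hr : constDeg k K = 1 := TH958.T4.constDeg_eq_one hK.algClosed
  obtain ⟨he, ⟨α, hα⟩, ⟨β, hβ⟩, ⟨v, hv, hodd⟩, L, _, _, _, _, θ, hθ, hgen, hdeg, hL, hcl⟩ := h
  have hrL : constDeg k L = 1 := TH958.T4.constDeg_eq_one hL.algClosed
  have hmain := W.main (L := L) h6 hr hrL hcl he (α := α) (β := β) (by rw [hα]; ring)
    (by rw [hβ]; ring) hv hodd (sub_eq_zero.2 hθ) hgen hdeg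
  obtain ⟨m1, m2, m3, m4, m5⟩ := hmain
  rw [A_eq, B_eq] at m1 m3 m5
  simp only [A_eq, B_eq] at m2 m4
  rw [← sum_eq] at m4
  refine ⟨⟨m1, fun c hc => m2 c ((div_eq_iff m1).1 hc)⟩, m3, m4, m5, fun hw => ?_⟩
  have hU : ∀ m : ℕ, S.VanishesTo k (coeffA p f) (coeffB e p r f) m → m ≤ 2 :=
    fun m hm => (m4 m hm).trans hw
  have m5' : ((2 : ℕ) : Cardinal) ≤ rank (coeffA p f) (coeffB e p r f) := by exact_mod_cast m5
  exact ⟨m5', hU, fun r hr' => TH180.R4.concl4 m5' hU r hr'⟩

/-- cube roots -/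
theorem cube {k K : Type} [Field k] [Finite k] [Field K] [Algebra k K] (hK : IsCurveField k K)
    (h6 : (6 : k) ≠ 0) (hi : IsSquare (-1 : k)) {κ : k} (hκ : κ ^ 2 = -108) {h : K}
    (hh : IsCube k h) : IsPencil k 2 (-36) 0 (algebraMap k K κ * (1 + h) / (1 - h)) ∧
      weightSum k 2 (-36) 0 (algebraMap k K κ * (1 + h) / (1 - h)) ≤ 2 * zeroSum k (h - 1) := by
  haveI : FF.IsFF k K := ⟨hK.essFiniteType, hK.trdeg_eq_one⟩
  have h2 : (2 : k) ≠ 0 := fun e => h6 (by linear_combination 3 * e)
  have h3 : (3 : k) ≠ 0 := fun e => h6 (by linear_combination 2 * e)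
  have hκ0 : κ ≠ 0 := by
    rintro rfl
    have h108 : (108 : k) ≠ 0 := by
      have : (108 : k) = 2 ^ 2 * 3 ^ 3 := by norm_num
      rw [this]
      exact mul_ne_zero (pow_ne_zero 2 h2) (pow_ne_zero 3 h3)
    apply h108
    linear_combination hκ
  obtain ⟨h1, ⟨v, hv, hodd⟩, ho, L, _, _, _, _, s, hs, hgen, hdeg, hL, hcl⟩ := hh
  have h10 : 1 - h ≠ 0 := sub_ne_zero.2 h1.symm
  obtain ⟨f, hfe⟩ : ∃ f : K, f = algebraMap k K κ * (1 + h) / (1 - h) := ⟨_, rfl⟩
  have hf : f * (1 - h) = algebraMap k K κ * (1 + h) := by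
    rw [hfe]
    exact div_mul_cancel₀ _ h10
  rw [← hfe]
  have h0 : h ≠ 0 := by
    rintro rfl
    rw [zero_sub, v.ord_neg] at hv
    have hone : v.ord (1 : K) = 0 := by
      have := v.ord_const (c := (1 : k)) one_ne_zero
      rwa [map_one] at this
    rw [hone] at hv
    exact lt_irrefl _ hv
  obtain ⟨θ, hθ, hθg⟩ := W.kum_root h6 hκ h1 hf hs hgen
  have hpole := W.pole_kum h6 hκ0 h1 hf hv
  refine ⟨⟨h2, ?_, ?_, ⟨v, by omega, ?_⟩, L, inferInstance, inferInstance, inferInstance,
    inferInstance, θ, sub_eq_zero.1 hθ, hθg, hdeg, hL, hcl⟩, ?_⟩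
  · obtain ⟨i, hi⟩ := hi
    exact ⟨8 * i, by linear_combination 64 * hi⟩
  · exact ⟨8, by norm_num⟩
  · rw [hpole]
    exact hodd.neg
  · rw [sum_eq]
    exact W.wSum_kum h6 hκ h0 h1 hf ho

open Pool.Agent.R427 in
/-- functions on the line -/
theorem cube_rat {k : Type} [Field k] [Finite k] {m : ℕ} (hm : ¬ 3 ∣ m) {g : RatFunc k}
    (hg : g ≠ 0) (hz : ∃ v : FF.Place k (RatFunc k), 0 < v.ord (RatFunc.X ^ m * g ^ 6 - 1) ∧
      Odd (v.ord (RatFunc.X ^ m * g ^ 6 - 1))) : IsCube k (RatFunc.X ^ m * g ^ 6) := by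
  obtain ⟨s1, s2, s3⟩ := W309.RK.sb k
  obtain ⟨s, hs, hgen⟩ := QC.exists_root hm hg
  refine ⟨?_, hz, QC.orders hm hg, QC.Cub k, inferInstance, inferInstance, inferInstance,
    inferInstance, s, hs, hgen, QC.finrank_cub, TH958.T4.isCurveField_rat, s3⟩
  intro h
  obtain ⟨v, hv, -⟩ := hz
  rw [h, sub_self, v.ord_zero] at hv
  exact lt_irrefl _ hv

open Pool.Agent.R427 in
/-- the sequences of functions -/
theorem powers {k : Type} [Field k] [Finite k] {l : ℕ} (hl : l.Prime) (hl5 : 5 ≤ l)
    (hd : l ∣ Nat.card k - 1) : ∃ c : k, c ≠ 0 ∧ ∀ j : ℕ,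
      IsCube k (algebraMap k (RatFunc k) (c ^ 6) * RatFunc.X ^ l ^ j) ∧
      zeroSum k (algebraMap k (RatFunc k) (c ^ 6) * RatFunc.X ^ l ^ j - 1) ≤ 1 := by
  have h0 : (X - 1 : k[X]).coeff 0 ≠ 0 := by
    rw [coeff_sub, coeff_X_zero, coeff_one_zero, zero_sub]
    exact neg_ne_zero.2 one_ne_zero
  have hX1 : (X - 1 : k[X]).natDegree = 1 := by
    rw [← C_1]
    exact natDegree_X_sub_C 1
  have hirr1 : Irreducible (X - 1 : k[X]) := by
    rw [← C_1]
    exact irreducible_X_sub_C 1
  obtain ⟨c, hc, hirr⟩ := QC.exists_c (g := X - 1) h0 hl hl5 (by rw [hX1]; omega) hd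
  refine ⟨c, hc, fun j => ?_⟩
  have hc6 : c ^ 6 ≠ 0 := pow_ne_zero 6 hc
  have hl3 : ¬ 3 ∣ l ^ j := by
    intro h3
    have h5 := Nat.prime_three.dvd_of_dvd_pow h3
    have := (Nat.prime_dvd_prime_iff_eq Nat.prime_three hl).1 h5
    omega
  have hlodd : Odd (l ^ j) := Odd.pow (hl.odd_of_ne_two (by omega))
  have hmd : (C (c ^ 6) * X ^ l ^ j : k[X]).natDegree = l ^ j := natDegree_C_mul_X_pow _ _ hc6
  have e3 : algebraMap k[X] (RatFunc k) (C (c ^ 6)) = algebraMap k (RatFunc k) (c ^ 6) := rfl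
  have e1 : algebraMap k (RatFunc k) (c ^ 6) * RatFunc.X ^ l ^ j - 1 =
      algebraMap k[X] (RatFunc k) ((X - 1 : k[X]).comp (C (c ^ 6) * X ^ l ^ j)) := by
    rw [sub_comp, X_comp, one_comp, map_sub, map_mul, map_pow _ X, RatFunc.algebraMap_X, e3,
      map_one]
  have e2 : algebraMap k (RatFunc k) (c ^ 6) * RatFunc.X ^ l ^ j =
      RatFunc.X ^ l ^ j * algebraMap k (RatFunc k) c ^ 6 := by
    rw [mul_comm, ← map_pow]
  constructor
  · rw [e2]
    apply cube_rat hl3 ((_root_.map_ne_zero _).2 hc)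
    obtain ⟨v, hv, -⟩ := J.one_zero_simple (hirr j _ hirr1 dvd_rfl)
    refine ⟨v, ?_⟩
    rw [← e2, e1]
    have hv' : v.ord (algebraMap k[X] (RatFunc k)
      ((X - 1 : k[X]).comp (C (c ^ 6) * X ^ l ^ j))) = 1 := hv
    rw [hv']
    exact ⟨one_pos, odd_one⟩
  · rw [e1]
    have h1 := TH180.R4.zSum_comp (m := C (c ^ 6) * X ^ l ^ j)
      (by rw [hmd]; exact hlodd) (X - 1) hirr1.ne_zero (fun π hπ hdv => hirr j π hπ hdv)
    rw [hX1] at h1
    exact h1

end proof

/-- Let `k` be a finite field of characteristic at least `5` with `q` elements.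

(1) Let `K` be the function field of a curve over `k`, `f` in `K`, and let `e`, `p`, `r` in `k` be such
that `e` is not zero and `P(e)` and `P(-e)` are squares in `k`, where `P = x ^ 3 + p x + r`. Let `f`
have a pole of odd order, and let `P(x) = f (x ^ 2 - e ^ 2)` have a solution `θ` in an extension
`L = K(θ)` of degree three with field of constants `k` and odd class number. Then the curve
`E : y ^ 2 = P(x) - f (x ^ 2 - e ^ 2)` over `K` has a non-constant `j`-invariant, no point of order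
two, and rank at least two. Its `L`-function vanishes at `1 / q` to order at most `weightSum`. If
`weightSum ≤ 2` then the order is at most two, and rank and order are two if the rank is at most the
order.

(2) Let `-1` be a square in `k` and `κ ^ 2 = -108`. If `h` in `K` satisfies `IsCube` then the conditions
in (1) hold for `y ^ 2 = x ^ 3 - 36 x - f (x ^ 2 - 4)`, `f = κ (1 + h) / (1 - h)`, and `weightSum` is at
most twice the sum of `2 ^ v₂(deg v)` over the zeros `v` of `h - 1`.

(3) If `K = k(t)`, the functions `h = t ^ m g ^ 6`, with `m` prime to `3`, `g` not zero and a zero of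
odd order of `h - 1`, satisfy `IsCube`.

(4) Let `-1` be a square in `k` and `κ ^ 2 = -108`. If a prime `l ≥ 5` divides `q - 1` then there is
`c` not zero in `k` such that for all `j` the conclusions of (1) hold, and `weightSum ≤ 2`, over
`K = k(t)` for `y ^ 2 = x ^ 3 - 36 x - f (x ^ 2 - 4)`, `f = κ (1 + h) / (1 - h)`,
`h = c ^ 6 t ^ (l ^ j)`. -/
theorem result :
    (∀ (k K : Type) [Field k] [Finite k] [Field K] [Algebra k K], (6 : k) ≠ 0 → IsCurveField k K →
      (∀ (e p r : k) (f : K), IsPencil k e p r f → Conclusions k e p r f) ∧ CubeRoots k K) ∧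
    ∀ (k : Type) [Field k] [Finite k], (6 : k) ≠ 0 → LineFunctions k ∧ Sequences k := by
  refine ⟨?_, ?_⟩
  · intro k K _ _ _ _ h6 hK
    exact ⟨fun e p r f h => common hK h6 h, fun κ hi hκ h hh => cube hK h6 hi hκ hh⟩
  · intro k _ _ h6
    refine ⟨fun m g hm hg hz => cube_rat hm hg hz, ?_⟩
    intro κ hi hκ l hl hl5 hd
    obtain ⟨c, hc, hj⟩ := powers (k := k) hl hl5 hd
    refine ⟨c, hc, ?_⟩
    rintro j f rfl
    obtain ⟨h1, h2⟩ := hj j
    have hK := Pool.Agent.TH958.T4.isCurveField_rat (k := k)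
    have e2 : lineFn (l ^ j) (algebraMap k (RatFunc k) c) =
        algebraMap k (RatFunc k) (c ^ 6) * RatFunc.X ^ l ^ j := by
      unfold lineFn
      rw [mul_comm, ← map_pow]
    rw [e2]
    obtain ⟨h3, h4⟩ := cube hK h6 hi hκ h1
    exact ⟨common hK h6 h3, h4.trans (Nat.mul_le_mul_left 2 h2)⟩

end Pool.Agent.Results.MP_48b749_nt.CubicPencilPullbacks
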