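import Pool.Agent.U880.JInv

/-!
# Rank equals order of vanishing, of unbounded size, for elliptic curves with exactly one point of
# order two (and for curves with full two-torsion) over function fields of curves of every genus

The elliptic curves `y ^ 2 = x ((x - 1) ^ 2 - h ^ m)`, their twists by `h`, and
`y ^ 2 = x ((x - 1) ^ 2 - h ^ (2 m))`, where `2 m = p ^ ν + 1`.
-/

set_option autoImplicit false
set_option linter.all false
set_option maxHeartbeats 4000000

open Polynomial Pool.Agent.W343.BSD Pool.Agent.W309.RK

namespace Pool.Agent.Results.MP_48b749_nt.OneTwoTorsionPoint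

/-- `x` has exactly one zero; the order of this zero and the degree of the place are odd. -/
def OneZero (k : Type) {K : Type} [Field k] [Field K] [Algebra k K] (x : K) : Prop :=
  ∃ v : FF.Place k K, 0 < v.ord x ∧ Odd (v.ord x) ∧ Odd (S.deg v) ∧
    ∀ w : FF.Place k K, 0 < w.ord x → w = v

/-- The conditions on `h` for the curves with one point of order two: `h` and the functions `h - ζ` with
`ζ ^ m = 1` have exactly one zero each, of odd order and at a place of odd degree; `h` has a pole
of odd degree, and the orders of all its other poles are divisible by four. -/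
structure Conditions (k : Type) {K : Type} [Field k] [Field K] [Algebra k K] (m : ℕ) (h : K) :
    Prop where
  zero : OneZero k h
  shift : ∀ ζ : k, ζ ^ m = 1 → OneZero k (h - algebraMap k K ζ)
  pole : ∃ v : FF.Place k K, v.ord h < 0 ∧ Odd (S.deg v) ∧
    ∀ w : FF.Place k K, w.ord h < 0 → ¬ (4 : ℤ) ∣ w.ord h → w = v

/-- The conditions on `h` for the curves with full two-torsion: `h` and the functions `h - ζ` with
`ζ ^ (2 m) = 1` have exactly one zero each, of odd order and at a place of odd degree; exactly one
of the poles of `h` has odd order, and the degree of this place is odd. -/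
structure ConditionsFull (k : Type) {K : Type} [Field k] [Field K] [Algebra k K] (m : ℕ) (h : K) :
    Prop where
  zero : OneZero k h
  shift : ∀ ζ : k, ζ ^ (2 * m) = 1 → OneZero k (h - algebraMap k K ζ)
  pole : ∃ v : FF.Place k K, v.ord h < 0 ∧ Odd (v.ord h) ∧ Odd (S.deg v) ∧
    ∀ w : FF.Place k K, w.ord h < 0 → Odd (w.ord h) → w = v

/-- The first coefficient of `E(e, δ, h)`. -/
def coeffA {K : Type} [Field K] (e δ : ℕ) (h : K) : K := (h ^ δ) ^ 2 * (-(1 / 3) - h ^ e)

/-- The second coefficient of `E(e, δ, h)`. -/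
def coeffB {K : Type} [Field K] (e δ : ℕ) (h : K) : K := (h ^ δ) ^ 3 * (2 / 27 - 2 * h ^ e / 3)

/-- The curve `E(e, δ, h) : y ^ 2 = x ^ 3 + a x + b`. For `δ = 0` this is
`y ^ 2 = x ((x - 1) ^ 2 - h ^ e)` (with `x` replaced by `x + 2 / 3`), for `δ = 1` its quadratic twist
by `h`. -/
def curve {K : Type} [Field K] (e δ : ℕ) (h : K) : WeierstrassCurve K :=
  ⟨0, 0, 0, coeffA e δ h, coeffB e δ h⟩

/-- The `j`-invariant of `E(e, δ, h)`. -/
def jInvariant {K : Type} [Field K] (e δ : ℕ) (h : K) : K :=
  6912 * coeffA e δ h ^ 3 / (4 * coeffA e δ h ^ 3 + 27 * coeffB e δ h ^ 2)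

open Classical in
/-- `E(e, δ, h)` is an elliptic curve whose `j`-invariant is not in `k`; it has exactly `t` points
`P` over `K` with `2 P = 0` and `ρ` linearly independent points over `K`; its `L`-function vanishes
at `T = 1 / |k|` to order at most `ρ`: if it is `(1 - |k| T) ^ M G(T)` with `G` in `ℤ[T]`, then
`M ≤ ρ`. If it is a polynomial with order of vanishing `r` and the rank is at most `r`, then the
rank and `r` are equal to `ρ`. -/
def RankAndOrder (k : Type) {K : Type} [Field k] [Finite k] [Field K] [Algebra k K] (t ρ e δ : ℕ)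
    (h : K) : Prop :=
  4 * coeffA e δ h ^ 3 + 27 * coeffB e δ h ^ 2 ≠ 0 ∧
  (∀ c : k, jInvariant e δ h ≠ algebraMap k K c) ∧
  Set.ncard {P : (curve e δ h).toAffine.Point | P + P = 0} = t ∧
  (∃ P : Fin ρ → (curve e δ h).toAffine.Point, LinearIndependent ℤ P) ∧
  (∀ M : ℕ, S.VanishesTo k (coeffA e δ h) (coeffB e δ h) M → M ≤ ρ) ∧
  ∀ r : ℕ, Pool.Agent.W313.Gr.HasOrder k (coeffA e δ h) (coeffB e δ h) r →
    Module.rank ℤ (curve e δ h).toAffine.Point ≤ r →
      r = ρ ∧ Module.rank ℤ (curve e δ h).toAffine.Point = ρ

theorem jInv_eq {K : Type} [Field K] {e δ : ℕ} {h : K} (hh : h ≠ 0) :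
    jInvariant e δ h = Pool.Agent.U880.JInv.jj (Pool.Agent.TH958.T5.aa (h ^ e))
      (Pool.Agent.TH958.T5.bb (h ^ e)) :=
  Pool.Agent.U880.JInv.jj_twist (pow_ne_zero δ hh) _ _

theorem jInv_ne {k K : Type} [Field k] [Field K] [Algebra k K] (h6 : (6 : k) ≠ 0) {e δ : ℕ}
    (he : 0 < e) {h : K} (h0 : OneZero k h) (c : k) : jInvariant e δ h ≠ algebraMap k K c := by
  obtain ⟨v, hv, -, -, -⟩ := h0
  rw [jInv_eq (Pool.Agent.TH958.T4.ne_of_pos v hv.ne')]
  exact Pool.Agent.U880.JInv.jj_ne v h6
    (by rw [v.ord_pow]; exact mul_pos (by exact_mod_cast he) hv) c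

/-- Let `p ≥ 5` be a prime and `2 m = p ^ ν + 1`, `ν ≥ 1`.

(1) Let `p ^ ν` be congruent to `1` modulo `4`, let `k` be a finite field with `p ^ (2 ν n)` elements
and let `K` be the function field of a curve over `k` with constant field `k` and odd class number.

(1a) If `h` in `K` satisfies `Conditions`, then the elliptic curve `y ^ 2 = x ((x - 1) ^ 2 - h ^ m)`
has exactly one point of order two over `K` and at least `m - 1` independent points, and its
`L`-function vanishes at `T = 1 / |k|` to order at most `m - 1`; if the rank is at most the order, both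
are `m - 1`. The same is true for its quadratic twist by `h` with `m` in place of `m - 1`.

(1b) If `h` satisfies `ConditionsFull`, then the elliptic curve `y ^ 2 = x ((x - 1) ^ 2 - h ^ (2 m))`
has three points of order two over `K` and at least `2 m - 1` independent points, and its
`L`-function vanishes to order at most `2 m - 1`; if the rank is at most the order, both are `2 m - 1`.

(2) There are such `k`, for every `p ≥ 5` and `ν ≥ 1`, and a sequence of polynomials `h i` over `k` such
that the conditions on `K` hold for `K = k(t)` and the conditions in (1a) and (1b) for all `h i`, and the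
elliptic curves in (1a) and (1b), respectively, for different `i` have different `j`-invariants, so
that they are not isomorphic over the algebraic closure of `k(t)`. -/
theorem result :
    (∀ (p ν n m : ℕ), p.Prime → 5 ≤ p → 1 ≤ ν → p ^ ν % 4 = 1 → 2 * m = p ^ ν + 1 →
      ∀ (k K : Type) [Field k] [Finite k] [Field K] [Algebra k K],
      Nat.card k = p ^ (2 * ν * n) → IsCurveField k K → Odd (S.classNumber k K) → ∀ h : K,
      (Conditions k m h → RankAndOrder k 2 (m - 1) m 0 h ∧ RankAndOrder k 2 m m 1 h) ∧
      (ConditionsFull k m h → RankAndOrder k 4 (2 * m - 1) (2 * m) 0 h)) ∧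
    ∀ (p ν m : ℕ), p.Prime → 5 ≤ p → 1 ≤ ν → 2 * m = p ^ ν + 1 →
      ∃ (k : Type) (_ : Field k) (_ : Finite k) (n : ℕ),
      Nat.card k = p ^ (2 * ν * n) ∧ IsCurveField k (RatFunc k) ∧
      Odd (S.classNumber k (RatFunc k)) ∧ ∃ h : ℕ → k[X],
        (∀ i, Conditions k m (algebraMap k[X] (RatFunc k) (h i)) ∧
          ConditionsFull k m (algebraMap k[X] (RatFunc k) (h i))) ∧
        ∀ i j, i ≠ j → ∀ δ ε : ℕ,
          jInvariant m δ (algebraMap k[X] (RatFunc k) (h i)) ≠
            jInvariant m ε (algebraMap k[X] (RatFunc k) (h j)) ∧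
          jInvariant (2 * m) δ (algebraMap k[X] (RatFunc k) (h i)) ≠
            jInvariant (2 * m) ε (algebraMap k[X] (RatFunc k) (h j)) := by
  refine ⟨?_, ?_⟩
  · intro p ν n m hp hp5 hν hQ hm k K _ _ _ _ hcard hK hcl h
    haveI : FF.IsFF k K := ⟨hK.essFiniteType, hK.trdeg_eq_one⟩
    classical
    haveI : Fact p.Prime := ⟨hp⟩
    haveI hch : CharP k p := charP_of_card hp hcard
    have hpf : p ≤ p ^ ν := Nat.le_self_pow (by omega) p
    have h6 : (6 : k) ≠ 0 := Pool.Agent.TH958.T4.six_ne hp hp5
    have h3 : (3 : K) ≠ 0 := Pool.Agent.U880.JInv.three_ne K h6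
    have h2 : (2 : K) ≠ 0 := by
      have h2 : (2 : k) ≠ 0 := fun e => h6 (by linear_combination 3 * e)
      have : algebraMap k K 2 ≠ 0 := by simpa using h2
      rwa [map_ofNat] at this
    have hcd := Pool.Agent.TH958.T4.constDeg_eq_one hK.algClosed
    have hm1 : (p ^ ν + 1) / 2 = m := by omega
    have hm2 : (p ^ ν - 1) / 2 = m - 1 := by omega
    refine ⟨fun hA => ?_, fun hA => ?_⟩
    · have hA' : Pool.Agent.TH958.T5.Adm k ((p ^ ν + 1) / 2) h := by
        rw [hm1]
        exact ⟨hA.zero, hA.shift, hA.pole⟩
      have r0 := Pool.Agent.TH958.T5.main_zero hp hp5 hQ hν hcard hcd hcl hA'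
      have r1 := Pool.Agent.TH958.T5.main_one hp hp5 hQ hν hcard hcd hcl hA'
      rw [hm1, hm2] at r0
      rw [hm1] at r1
      obtain ⟨a1, a2, a3, a4, a5⟩ := r0
      obtain ⟨b1, b2, b3, b4, b5⟩ := r1
      exact ⟨⟨a1, jInv_ne h6 (by omega) hA.zero, a2, a3, a4, a5⟩,
        ⟨b1, jInv_ne h6 (by omega) hA.zero, b2, b3, b4, b5⟩⟩
    · have hA' : Pool.Agent.TH958.T4.Admissible k (p ^ ν) h := by
        refine ⟨hA.zero, fun z hz => hA.shift z (by rw [hm]; exact hz), hA.pole⟩
      obtain ⟨a1, a3, a4⟩ := Pool.Agent.TH958.T4.main hp hp5 hQ hν hcard hcd hcl hA'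
      have e1 : ∀ u : K, aOf (1 + u) (1 - u) = -(1 / 3) - u ^ 2 := by
        intro u; unfold aOf; field_simp; ring
      have e2 : ∀ u : K, bOf (1 + u) (1 - u) = 2 / 27 - 2 * u ^ 2 / 3 := by
        intro u
        unfold bOf
        have h27 : (27 : K) ≠ 0 := by
          have : (27 : K) = 3 ^ 3 := by norm_num
          rw [this]
          exact pow_ne_zero 3 h3
        field_simp
        ring
      have eA : aOf (1 + h ^ m) (1 - h ^ m) = coeffA (2 * m) 0 h := by
        rw [e1, ← pow_mul, mul_comm m 2]
        unfold coeffA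
        ring
      have eB : bOf (1 + h ^ m) (1 - h ^ m) = coeffB (2 * m) 0 h := by
        rw [e2, ← pow_mul, mul_comm m 2]
        unfold coeffB
        ring
      rw [hm1, eA, eB] at a1 a3 a4
      have hρ : p ^ ν = 2 * m - 1 := by omega
      rw [hρ] at a3 a4
      -- the two-torsion
      have ht : ∀ x : K, x ^ 3 + coeffA (2 * m) 0 h * x + coeffB (2 * m) 0 h =
          (x + 2 / 3) * (x - 1 / 3 - h ^ m) * (x - 1 / 3 + h ^ m) := by
        intro x
        unfold coeffA coeffB
        rw [mul_comm 2 m, pow_mul]
        have h27 : (27 : K) ≠ 0 := by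
          have : (27 : K) = 3 ^ 3 := by norm_num
          rw [this]
          exact pow_ne_zero 3 h3
        field_simp
        ring
      have hdisc : 4 * coeffA (2 * m) 0 h ^ 3 + 27 * coeffB (2 * m) 0 h ^ 2 =
          -(4 * (h ^ m) ^ 2 * (1 - h ^ m) ^ 2 * (1 + h ^ m) ^ 2) := by
        unfold coeffA coeffB
        rw [mul_comm 2 m, pow_mul]
        have h27 : (27 : K) ≠ 0 := by
          have : (27 : K) = 3 ^ 3 := by norm_num
          rw [this]
          exact pow_ne_zero 3 h3
        field_simp
        ring
      have hu : h ^ m ≠ 0 := by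
        intro h0
        apply a1
        rw [hdisc, h0]
        ring
      have hu1 : 1 - h ^ m ≠ 0 := by
        intro h0
        apply a1
        rw [hdisc, h0]
        ring
      have hu2 : 1 + h ^ m ≠ 0 := by
        intro h0
        apply a1
        rw [hdisc, h0]
        ring
      have ht4 : Set.ncard {P : (curve (2 * m) 0 h).toAffine.Point | P + P = 0} = 4 := by
        have := Pool.Agent.U880.Tors.card_tors h2 a1
          (R := ({-(2 / 3), 1 / 3 + h ^ m, 1 / 3 - h ^ m} : Finset K)) (by
            intro x
            rw [ht, mul_eq_zero, mul_eq_zero]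
            simp only [Finset.mem_insert, Finset.mem_singleton]
            constructor
            · rintro ((h1 | h1) | h1)
              · left; linear_combination h1
              · right; left; linear_combination h1
              · right; right; linear_combination h1
            · rintro (h1 | h1 | h1)
              · left; left; linear_combination h1
              · left; right; linear_combination h1
              · right; linear_combination h1)
        rw [Finset.card_insert_of_notMem, Finset.card_insert_of_notMem,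
          Finset.card_singleton] at this
        · exact this
        · rw [Finset.mem_singleton]
          intro h1
          have : 2 * h ^ m = 0 := by linear_combination h1
          rcases mul_eq_zero.1 this with h4 | h4
          · exact h2 h4
          · exact hu h4
        · rw [Finset.mem_insert, Finset.mem_singleton]
          have e3 : (1 : K) = 1 / 3 + 2 / 3 := by field_simp; norm_num
          rintro (h1 | h1)
          · apply hu2
            linear_combination -h1 + e3
          · apply hu1
            linear_combination -h1 + e3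
      refine ⟨a1, jInv_ne h6 (by omega) hA.zero, ht4, a3, a4, ?_⟩
      exact Pool.Agent.TH958.T5.equalities a3 a4
  · intro p ν m hp hp5 hν hm
    have hpf : p ≤ p ^ ν := Nat.le_self_pow (by omega) p
    obtain ⟨k, i1, i2, n, h1, h2, h3, h, h4, h5⟩ :=
      Pool.Agent.U880.JInv.exists_seq hp hp5 hν
    have hm1 : (p ^ ν + 1) / 2 = m := by omega
    rw [hm1] at h4
    refine ⟨k, i1, i2, n, h1, h2, h3, h, fun i => ?_, ?_⟩
    · obtain ⟨hA, hB⟩ := h4 i
      exact ⟨⟨hA.zero, hA.shift, hA.pole⟩, ⟨hB.zero, fun z hz => hB.shift z (by rw [← hm]; exact hz),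
        hB.pole⟩⟩
    · intro i j hij δ ε
      have hne : ∀ i, algebraMap k[X] (RatFunc k) (h i) ≠ 0 := by
        intro i
        obtain ⟨v, hv, -, -, -⟩ := (h4 i).1.zero
        exact Pool.Agent.TH958.T4.ne_of_pos v hv.ne'
      rw [jInv_eq (hne i), jInv_eq (hne j), jInv_eq (hne i), jInv_eq (hne j)]
      exact ⟨h5 m (by omega) (by omega) i j hij, h5 (2 * m) (by omega) (by omega) i j hij⟩

end Pool.Agent.Results.MP_48b749_nt.OneTwoTorsionPoint
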