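import Pool.Agent.Y701.QG.Mult

/-!
# The elliptic curves `y ^ 2 = f(x) + 2 g(x) t + h(x) t ^ 2` over the `ℓ`-power Galois extensions of `k(t)`

Here `k` is a finite field of characteristic at least five and `f`, `g`, `h` are polynomials over `k` of
degree at most three. The `L`-function over `k(t)` is written down in terms of the prime factors `P` of
`g ^ 2 - f h` and the quadratic residue symbols of `h` (or `f`) modulo `P`; for the finite Galois
extensions `L` of `k(t)` of degree a power of `ℓ` the order of vanishing is bounded, and a criterion for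
the rank to be zero, with equality in the conjecture of Birch and Swinnerton-Dyer, is proved.
-/

set_option autoImplicit false
set_option linter.all false
set_option maxHeartbeats 4000000

open Polynomial FF Module Pool.Agent.W343.BSD

namespace Pool.Agent.Results.MP_48b749_nt.QuadraticInParameter

section defs

variable {k : Type} [Field k]

/-- The coefficient `f_i + 2 g_i t + h_i t ^ 2` of `x ^ i` in `F(x, t) = f(x) + 2 g(x) t + h(x) t ^ 2`. -/
noncomputable def coef (f g h : k[X]) (i : ℕ) : k[X] :=
  C (f.coeff i) + C (2 * g.coeff i) * X + C (h.coeff i) * X ^ 2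

/-- The polynomial `A = a c - b ^ 2 / 3`, where `F(x, t) = a x ^ 3 + b x ^ 2 + c x + d`. -/
noncomputable def polyA (f g h : k[X]) : k[X] :=
  coef f g h 1 * coef f g h 3 - C (1 / 3) * coef f g h 2 ^ 2

/-- The polynomial `B = a ^ 2 d - a b c / 3 + 2 b ^ 3 / 27`. The curve `y ^ 2 = x ^ 3 + A x + B` is
isomorphic to `y ^ 2 = F(x, t)`. -/
noncomputable def polyB (f g h : k[X]) : k[X] :=
  coef f g h 0 * coef f g h 3 ^ 2 - C (1 / 3) * (coef f g h 1 * coef f g h 2 * coef f g h 3) +
    C (2 / 27) * coef f g h 2 ^ 3

/-- `A` as an element of `k(t)`. -/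
noncomputable def coeffA (f g h : k[X]) : RatFunc k := algebraMap k[X] (RatFunc k) (polyA f g h)

/-- `B` as an element of `k(t)`. -/
noncomputable def coeffB (f g h : k[X]) : RatFunc k := algebraMap k[X] (RatFunc k) (polyB f g h)

/-- `f`, `g`, `h` have degree at most three, `g ^ 2 - f h` is not zero, and `y ^ 2 = F(x, t)` is an
elliptic curve over `k(t)` which is not a constant curve, not even after a change of coordinates: there
are no constants `α`, `β` and `v` of degree at most one with `A = α v ^ 4` and `B = β v ^ 6`. -/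
structure Admissible (f g h : k[X]) : Prop where
  degrees : f.natDegree ≤ 3 ∧ g.natDegree ≤ 3 ∧ h.natDegree ≤ 3
  delta : g ^ 2 - f * h ≠ 0
  elliptic : 4 * polyA f g h ^ 3 + 27 * polyB f g h ^ 2 ≠ 0
  nonconstant : ∀ (α β : k) (v : k[X]), v.natDegree ≤ 1 →
    ¬ (polyA f g h = C α * v ^ 4 ∧ polyB f g h = C β * v ^ 6)

open Classical in
/-- The monic irreducible divisors of `D`. -/
noncomputable def primes (D : k[X]) : Finset k[X] :=
  (UniqueFactorizationMonoid.normalizedFactors D).toFinset

open Classical in
/-- The quadratic residue symbol of `r` modulo the irreducible polynomial `P`. -/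
noncomputable def symbol (P r : k[X]) : ℤ :=
  if P ∣ r then 0 else if ∃ s : k[X], P ∣ r - s ^ 2 then 1 else -1

open Classical in
/-- The quadratic character of `k`. -/
noncomputable def chi (c : k) : ℤ := if c = 0 then 0 else if IsSquare c then 1 else -1

open Classical in
/-- The sign `ε_P` of a prime divisor `P` of `g ^ 2 - f h`: the quadratic residue symbol of `h` modulo
`P`, or that of `f` if `P` divides `h`. -/
noncomputable def eps (f h P : k[X]) : ℤ := if P ∣ h then symbol P f else symbol P h

open Classical in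
/-- The sign `σ_R` of a prime divisor `R` of the coefficient of `x ^ 3`: it is `0` unless `F(x, t)` is
modulo `R` a constant `c` times the square of a polynomial in `x`, and then it is the symbol of `c`. -/
noncomputable def sig (f g h R : k[X]) : ℤ :=
  if R ∣ coef f g h 2 then (if R ∣ coef f g h 1 then symbol R (coef f g h 0) else 0)
  else if R ∣ coef f g h 1 ^ 2 - 4 * coef f g h 0 * coef f g h 2 then symbol R (coef f g h 2) else 0

open Classical in
/-- The sign `σ_∞`: it is `0` unless `h` is a constant `c` times the square of a polynomial of degree at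
most one, and then it is `χ(c)`. -/
noncomputable def sigInf (h : k[X]) : ℤ :=
  if h.coeff 3 = 0 then
    if h.coeff 2 = 0 then (if h.coeff 1 = 0 then chi (h.coeff 0) else 0)
    else if h.coeff 1 ^ 2 - 4 * h.coeff 0 * h.coeff 2 = 0 then chi (h.coeff 2) else 0
  else 0

/-- `∏_P (1 - ε_P (q T) ^ (deg P))`, over the prime divisors `P` of `g ^ 2 - f h`. -/
noncomputable def numerator (f g h : k[X]) : ℤ[X] :=
  ∏ P ∈ primes (g ^ 2 - f * h),
    (1 - C (eps f h P * (Nat.card k : ℤ) ^ P.natDegree) * X ^ P.natDegree)

/-- `(1 - σ_∞ q T) ∏_R (1 - σ_R (q T) ^ (deg R))`, over the prime divisors `R` of the coefficient of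
`x ^ 3`. -/
noncomputable def denominator (f g h : k[X]) : ℤ[X] :=
  (1 - C (sigInf h * (Nat.card k : ℤ)) * X) * ∏ R ∈ primes (coef f g h 3),
    (1 - C (sig f g h R * (Nat.card k : ℤ) ^ R.natDegree) * X ^ R.natDegree)

/-- The multiplicity modulo `ℓ` of the zero `T = 1 / q` of `1 - ε (q T) ^ d`, for a sign `ε`: it is
`ℓ ^ (ord_ℓ d)` if `ε = 1`, or if `ε = -1` and `ℓ = 2`, and `0` otherwise. -/
def weight (ℓ : ℕ) (ε : ℤ) (d : ℕ) : ℕ :=
  if ε = 1 ∨ (ε = -1 ∧ ℓ = 2) then ℓ ^ padicValNat ℓ d else 0

/-- The multiplicity modulo `ℓ` of the zero `T = 1 / q` of the Euler factor at `v`. It is `0` if and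
only if `ℓ` does not divide the number of the points of the reduction at `v` (of the nonsingular points,
over the residue field), since the value of the Euler factor at `1 / q` is this number divided by
the number of the elements of the residue field. -/
noncomputable def localMult {k : Type} [Field k] (ℓ : ℕ) [Fact ℓ.Prime] (f g h : k[X])
    (v : Place k (RatFunc k)) : ℕ :=
  ((S.locFactor v (coeffA f g h) (coeffB f g h)).map (Int.castRingHom (ZMod ℓ))).rootMultiplicity
    ((Nat.card k : ℕ) : ZMod ℓ)⁻¹

/-- The place `w` of `L` lies over the place `v` of `K`, with the ramification index `e`. The fields of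
constants `k` and `k'` may be different. -/
def LiesOver {k K k' L : Type} [Field k] [Field K] [Algebra k K] [Field k'] [Field L]
    [Algebra k' L] [Algebra K L] (w : Place k' L) (v : Place k K) (e : ℕ) : Prop :=
  0 < e ∧ ∀ f : K, w.ord (algebraMap K L f) = e * v.ord f

/-- `L` is a Galois extension of `k(t)` of degree a power of `ℓ` with field of constants `k'`; the
places over `v` have the ramification index `e v`, which is `1` outside the finite set `B`. -/
structure IsLayer (k k' L : Type) [Field k] [Field k'] [Field L] [Algebra k' L] [Algebra k k']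
    [Algebra (RatFunc k) L] (ℓ : ℕ) (e : Place k (RatFunc k) → ℕ)
    (B : Finset (Place k (RatFunc k))) : Prop where
  curve : IsCurveField k' L
  galois : IsGalois (RatFunc k) L
  power : ∃ s : ℕ, finrank (RatFunc k) L = ℓ ^ s
  index : ∀ (v : Place k (RatFunc k)) (w : Place k' L) (n : ℕ), LiesOver w v n → n = e v
  unramified : ∀ v, v ∉ B → e v = 1

open Classical in
/-- The rank of the group of the `K`-rational points of `y ^ 2 = x ^ 3 + a x + b`. -/
noncomputable def rank {K : Type} [Field K] (a b : K) : Cardinal :=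
  Module.rank ℤ (⟨0, 0, 0, a, b⟩ : WeierstrassCurve K).toAffine.Point

/-- `L(T, E)` does not vanish at `T = 1 / |k|` (no factor `(1 - |k| T) ^ m` with `m ≥ 1`); if it is a
polynomial, its order of vanishing is `0`, and if the rank is at most the order of vanishing, it is
also `0`. -/
def RankZero (k : Type) {K : Type} [Field k] [Field K] [Algebra k K] (a b : K) : Prop :=
  (∀ m : ℕ, S.VanishesTo k a b m → m = 0) ∧
  ∀ P : ℤ[X], S.Lfun k a b = (P : PowerSeries ℤ) →
    (P.map (Int.castRingHom ℚ)).rootMultiplicity ((Nat.card k : ℚ)⁻¹) = 0 ∧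
    (rank a b ≤ (P.map (Int.castRingHom ℚ)).rootMultiplicity ((Nat.card k : ℚ)⁻¹) → rank a b = 0)

end defs

section proof

open Pool.Agent.Y701

variable {k : Type} [Field k]

theorem co_eq (f g h : k[X]) (i : ℕ) : coef f g h i = QG.co f g h i := rfl

theorem polyA_eq (f g h : k[X]) : polyA f g h = QG.PA f g h := rfl

theorem polyB_eq (f g h : k[X]) : polyB f g h = QG.PB f g h := rfl

theorem good_of {f g h : k[X]} (hA : Admissible f g h) : QG.Good f g h :=
  ⟨hA.degrees.1, hA.degrees.2.1, hA.degrees.2.2, hA.delta, hA.nonconstant, hA.elliptic⟩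

theorem mem_primes {D : k[X]} (hD : D ≠ 0) (P : k[X]) :
    P ∈ primes D ↔ P.Monic ∧ Irreducible P ∧ P ∣ D := by
  classical
  unfold primes
  rw [Multiset.mem_toFinset]
  constructor
  · intro h
    have h1 := UniqueFactorizationMonoid.irreducible_of_normalized_factor P h
    have h2 := UniqueFactorizationMonoid.normalize_normalized_factor P h
    refine ⟨?_, h1, UniqueFactorizationMonoid.dvd_of_mem_normalizedFactors h⟩
    rw [← h2]
    exact Polynomial.monic_normalize h1.ne_zero
  · rintro ⟨h1, h2, h3⟩
    obtain ⟨Q, hQ, hPQ⟩ := UniqueFactorizationMonoid.exists_mem_normalizedFactors_of_dvd hD h2 h3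
    have h4 := UniqueFactorizationMonoid.normalize_normalized_factor Q hQ
    have h5 : normalize P = P := h1.normalize_eq_self
    have h6 : P = Q := by
      rw [← h5, ← h4]
      exact normalize_eq_normalize_iff_associated.2 hPQ
    rw [h6]
    exact hQ

theorem chi_eq [Fintype k] [DecidableEq k] (c : k) : chi c = quadraticChar k c := by
  classical
  unfold chi
  rw [quadraticChar_apply, quadraticCharFun]
  congr

theorem sigInf_eq [Fintype k] [DecidableEq k] (h : k[X]) : sigInf h = QG.si h := by
  classical
  unfold sigInf QG.si QG.sq3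
  simp only [chi_eq]

theorem symbol_eq (P r : k[X]) : symbol P r = QG.sgn P r := rfl

theorem eps_eq (f h P : k[X]) : eps f h P = QG.eps f h P := rfl

theorem sig_eq (f g h R : k[X]) : sig f g h R = QG.sig f g h R := rfl

end proof

/-- Let `k` be a finite field with `q` elements, of characteristic at least five, and `f`, `g`, `h`
polynomials of degree at most three over `k` such that `E : y ^ 2 = f(x) + 2 g(x) t + h(x) t ^ 2` is an
elliptic curve over `k(t)` which is not constant, and `g ^ 2 - f h` is not zero.

(1) One has `L(T, E) (1 - σ_∞ q T) ∏_R (1 - σ_R (q T) ^ (deg R)) = ∏_P (1 - ε_P (q T) ^ (deg P))` over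
the prime divisors `P` of `g(x) ^ 2 - f(x) h(x)` and `R` of the coefficient of `x ^ 3`.

(2) Let `ℓ` be a prime different from the characteristic and `L` any finite Galois extension of `k(t)` of
degree a power of `ℓ`, with field of constants `k'` and ramification indices `e_v`. If `L(T, E/L)` is
`(1 - |k'| T) ^ m G(T)` with `G` in `ℤ[T]`, then
`[k' : k] m + [L : k(t)] (weight σ_∞ + ∑_R weight σ_R) ≤ [L : k(t)] ∑_P weight ε_P +
  ∑_v ([L : k(t)] - [L : k(t)] / e_v) localMult v`.

(3) So if the weights of the `ε_P` are zero (for odd `ℓ`: if no `ε_P` is `1`, that is, `h` is not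
a square different from zero modulo any prime divisor of `g ^ 2 - f h`, ...), and `ℓ` divides at none of
the ramified places `v` the number of the points of the reduction of `E`, then `L(T, E/L)` does not
vanish at the central point and (by Tate's inequality) the rank of `E(L)` is zero: the conjecture of Birch
and Swinnerton-Dyer holds for `E` over `L`. -/
theorem result (k : Type) [Field k] [Finite k] (h6 : (6 : k) ≠ 0) (f g h : k[X])
    (hA : Admissible f g h) :
    S.Lfun k (coeffA f g h) (coeffB f g h) * (denominator f g h : PowerSeries ℤ) =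
      (numerator f g h : PowerSeries ℤ) ∧
    ∀ (ℓ : ℕ) [Fact ℓ.Prime], (ℓ : k) ≠ 0 → ∀ (k' L : Type) [Field k'] [Finite k'] [Field L]
      [Algebra k' L] [Algebra k k'] [Algebra k L] [Algebra (RatFunc k) L]
      [IsScalarTower k (RatFunc k) L] [IsScalarTower k k' L] (e : Place k (RatFunc k) → ℕ)
      (B : Finset (Place k (RatFunc k))), IsLayer k k' L ℓ e B →
      (∀ m : ℕ, S.VanishesTo k' (algebraMap (RatFunc k) L (coeffA f g h))
          (algebraMap (RatFunc k) L (coeffB f g h)) m →
        finrank k k' * m + finrank (RatFunc k) L * (weight ℓ (sigInf h) 1 +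
            ∑ R ∈ primes (coef f g h 3), weight ℓ (sig f g h R) R.natDegree) ≤
          finrank (RatFunc k) L *
            ∑ P ∈ primes (g ^ 2 - f * h), weight ℓ (eps f h P) P.natDegree +
          ∑ v ∈ B, (finrank (RatFunc k) L - finrank (RatFunc k) L / e v) * localMult ℓ f g h v) ∧
      ((∀ P ∈ primes (g ^ 2 - f * h), weight ℓ (eps f h P) P.natDegree = 0) →
        (∀ v ∈ B, e v ≠ 1 → localMult ℓ f g h v = 0) →
        RankZero k' (algebraMap (RatFunc k) L (coeffA f g h))
          (algebraMap (RatFunc k) L (coeffB f g h))) := by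
  classical
  letI : Fintype k := Fintype.ofFinite k
  have hG := good_of hA
  have hΔ : 4 * coeffA f g h ^ 3 + 27 * coeffB f g h ^ 2 ≠ 0 := hG.hΔ
  have hS : ∀ P, P ∈ primes (g ^ 2 - f * h) ↔ P.Monic ∧ Irreducible P ∧ P ∣ g ^ 2 - f * h :=
    mem_primes hA.delta
  have hT : ∀ P, P ∈ primes (coef f g h 3) ↔ P.Monic ∧ Irreducible P ∧ P ∣ coef f g h 3 :=
    mem_primes (Pool.Agent.Y701.QG.Good.co3 h6 hG)
  refine ⟨?_, ?_⟩
  · have h1 := Pool.Agent.Y701.QG.exact_lfun h6 hG hS hT
    rw [S.lfun_eq hΔ]
    unfold denominator numerator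
    rw [sigInf_eq]
    exact h1
  intro ℓ hℓ hℓk k' L _ _ _ _ _ _ _ _ _ e B hlay
  obtain ⟨s, hs⟩ := hlay.power
  have i1 : FiniteDimensional (RatFunc k) L := Module.finite_of_finrank_pos (by
    rw [hs]; exact pow_pos hℓ.out.pos s)
  have i2 : FF.IsFF k L := isFF_of_finite (K := RatFunc k)
  have i3 : FF.IsFF k' L := ⟨hlay.curve.essFiniteType, hlay.curve.trdeg_eq_one⟩
  have i4 := hlay.galois
  have key : ∀ m : ℕ, S.VanishesTo k' (algebraMap (RatFunc k) L (coeffA f g h))
          (algebraMap (RatFunc k) L (coeffB f g h)) m →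
        finrank k k' * m + finrank (RatFunc k) L * (weight ℓ (sigInf h) 1 +
            ∑ R ∈ primes (coef f g h 3), weight ℓ (sig f g h R) R.natDegree) ≤
          finrank (RatFunc k) L *
            ∑ P ∈ primes (g ^ 2 - f * h), weight ℓ (eps f h P) P.natDegree +
          ∑ v ∈ B, (finrank (RatFunc k) L - finrank (RatFunc k) L / e v) *
            localMult ℓ f g h v := by
    intro m hm
    have h1 := Pool.Agent.Y701.QG.bound (k' := k') (L := L) h6 hG hS hT hℓk hs
      (fun v w n hov => hlay.index v (Pool.Agent.W343.BSD.upPlace (k' := k') w) n ⟨hov.1, hov.2⟩)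
      B hlay.unramified m hm
    rw [sigInf_eq]
    exact h1
  refine ⟨key, fun hP hv => ?_⟩
  have hz : ∀ m : ℕ, S.VanishesTo k' (algebraMap (RatFunc k) L (coeffA f g h))
          (algebraMap (RatFunc k) L (coeffB f g h)) m → m = 0 := by
    intro m hm
    have h1 := key m hm
    rw [Finset.sum_eq_zero hP, mul_zero, zero_add] at h1
    have h2 : ∑ v ∈ B, (finrank (RatFunc k) L - finrank (RatFunc k) L / e v) *
        localMult ℓ f g h v = 0 := by
      refine Finset.sum_eq_zero fun v hvB => ?_
      by_cases he : e v = 1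
      · rw [he, Nat.div_one, Nat.sub_self, zero_mul]
      · rw [hv v hvB he, mul_zero]
    rw [h2] at h1
    have i5 : Module.Finite k k' := Module.Finite.of_finite
    have h3 : finrank k k' * m = 0 := by omega
    exact (Nat.mul_eq_zero.1 h3).resolve_left finrank_pos.ne'
  refine ⟨hz, fun P hPL => ?_⟩
  have h1 : (P.map (Int.castRingHom ℚ)).rootMultiplicity ((Nat.card k' : ℚ)⁻¹) = 0 := by
    obtain ⟨r, hr⟩ : ∃ r : ℕ,
      (P.map (Int.castRingHom ℚ)).rootMultiplicity ((Nat.card k' : ℚ)⁻¹) = r := ⟨_, rfl⟩
    obtain ⟨G, hG⟩ := Pool.Agent.TH943.KD.dvd_of_mult (Nat.card_pos (α := k')).ne' hr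
    rw [hr]
    exact hz r ⟨G, by rw [hPL, hG]⟩
  refine ⟨h1, fun hle => ?_⟩
  rw [h1] at hle
  exact le_antisymm (by simpa using hle) (Cardinal.zero_le _)

end Pool.Agent.Results.MP_48b749_nt.QuadraticInParameter
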